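import Mathlib

/-! Row ARI of the board `hxb`: the arithmetic of the choice of `M`. -/

set_option autoImplicit false

namespace Pool.Agent.H15.HX

theorem cog_arith3 (q r N d : ℕ) (hq : 5 ≤ q) (hr : 1 ≤ r) (hdN : d ≤ N)
    (hN : N ≤ (q - 1) * r) (hd : 16 * q * (q - 1) < 3 * d) :
    ∃ M, M ≤ N ∧ ¬ (2 * d * M * ((q - 1) * r) ≤
      2 * N * ((q - 1) * r) + (q - 1) * q * M * (4 * N + d * (M - 1))) := by
  obtain ⟨p, hp⟩ : ∃ p, p = q - 1 := ⟨_, rfl⟩
  obtain ⟨R, hR⟩ : ∃ R, R = (q - 1) * r := ⟨_, rfl⟩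
  rw [← hR] at hN
  rw [← hR]
  rw [← hp] at hd ⊢
  have hp4 : 4 ≤ p := by omega
  have hd0 : 100 ≤ d := by
    by_contra hlt
    have h1 : 16 * 5 * 4 ≤ 16 * q * p := Nat.mul_le_mul (Nat.mul_le_mul_left 16 hq) hp4
    omega
  have hN0 : 100 ≤ N := le_trans hd0 hdN
  obtain ⟨M, hM⟩ : ∃ M, M = (3 * N + d - 1) / d := ⟨_, rfl⟩
  have hM1 : d * M ≤ 3 * N + d - 1 := by rw [hM]; exact Nat.mul_div_le _ _
  have hM2 : 3 * N ≤ d * M := by
    have h1 := Nat.lt_div_mul_add (a := 3 * N + d - 1) (b := d) (by omega)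
    rw [← hM] at h1
    have h2 : M * d = d * M := Nat.mul_comm _ _
    omega
  have hM0 : 1 ≤ M := by
    rcases Nat.eq_zero_or_pos M with h | h
    · rw [h] at hM2; omega
    · exact h
  obtain ⟨D, hD⟩ : ∃ D, D = d * M := ⟨_, rfl⟩
  rw [← hD] at hM1 hM2
  have hD4 : D ≤ 4 * N := by omega
  refine ⟨M, ?_, ?_⟩
  · by_contra hlt
    have h1 : 100 * (N + 1) ≤ d * M := Nat.mul_le_mul hd0 (by omega)
    rw [← hD] at h1
    omega
  · intro hle
    have e1 : d * (M - 1) = D - d := by rw [Nat.mul_sub, ← hD, mul_one]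
    have e2 : 2 * d * M * R = 2 * D * R := by rw [hD]; ring
    rw [e1, e2] at hle
    have h1 : 2 * D * R ≤ 2 * N * R + p * q * M * (4 * N + D) :=
      hle.trans (Nat.add_le_add_left (Nat.mul_le_mul_left _ (by omega)) _)
    have h2 : d * (2 * D * R) ≤ d * (2 * N * R + p * q * M * (4 * N + D)) :=
      Nat.mul_le_mul_left _ h1
    have h3 : d * (2 * N * R + p * q * M * (4 * N + D)) =
        d * (2 * N * R) + p * q * (D * (4 * N + D)) := by rw [hD]; ring
    rw [h3] at h2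
    zify at h2 hd hM2 hD4 hN hN0 hd0
    have h4 : (3 : ℤ) * (D * (4 * N + D)) ≤ 32 * N * (D - N) := by
      nlinarith [mul_nonneg (show (0 : ℤ) ≤ 3 * D - 8 * N by linarith)
        (show (0 : ℤ) ≤ 4 * N - D by linarith)]
    have h5 : (0 : ℤ) ≤ (p : ℤ) * q := by positivity
    have h6 : (p : ℤ) * q * (3 * (D * (4 * N + D))) ≤ p * q * (32 * N * (D - N)) :=
      mul_le_mul_of_nonneg_left h4 h5
    have h7 : (0 : ℤ) < N * (D - N) := mul_pos (by linarith) (by linarith)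
    have h8 : (0 : ℤ) ≤ 6 * d * (D - N) * (R - N) :=
      mul_nonneg (mul_nonneg (by linarith) (by linarith)) (by linarith)
    have h9 : (6 * d - 32 * (p * q)) * (N * (D - N)) ≤ (0 : ℤ) := by nlinarith
    have h10 : (0 : ℤ) < 6 * d - 32 * (p * q) := by
      have : (16 : ℤ) * q * p = 16 * (p * q) := by ring
      rw [this] at hd
      linarith
    have h11 := mul_pos h10 h7
    linarith

end Pool.Agent.H15.HX
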